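import Mathlib

namespace Pool.Agent.W974.PW

open Filter

/-- Pell numbers `0, 1, 2, 5, 12, 29, ...`. -/
def pell : ℕ → ℕ
  | 0 => 0
  | 1 => 1
  | (m + 2) => 2 * pell (m + 1) + pell m

@[simp] lemma pell_zero : pell 0 = 0 := rfl
@[simp] lemma pell_one : pell 1 = 1 := rfl
lemma pell_add_two (m : ℕ) : pell (m + 2) = 2 * pell (m + 1) + pell m := rfl

lemma pell_add (m n : ℕ) : pell (m + n + 1) = pell m * pell n + pell (m + 1) * pell (n + 1) := by
  induction n using Nat.twoStepInduction generalizing m with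
  | zero => simp
  | one => 
      have : pell (m + 1 + 1) = 2 * pell (m + 1) + pell m := rfl
      have h2 : pell (1 + 1) = 2 := rfl
      rw [this, h2]; simp; ring
  | more n ih1 ih2 =>
      have e1 : pell (m + (n + 2) + 1) = 2 * pell (m + (n+1) + 1) + pell (m + n + 1) := by
        have : m + (n + 2) + 1 = (m + n + 1) + 2 := by ring
        rw [this, pell_add_two]; congr 2
      have e2 : pell (n + 2) = 2 * pell (n + 1) + pell n := rfl
      have e3 : pell (n + 2 + 1) = 2 * pell (n + 2) + pell (n + 1) := rfl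
      have e4 : pell (n + 1 + 1) = 2 * pell (n + 1) + pell n := rfl
      rw [e1, ih1, ih2, e3, e2]; ring

lemma pell_coprime (m : ℕ) : Nat.Coprime (pell m) (pell (m + 1)) := by
  induction m with
  | zero => simp
  | succ m ih =>
      rw [show pell (m + 1 + 1) = pell m + pell (m+1) * 2 by rw [pell_add_two]; ring]
      rw [Nat.coprime_add_mul_left_right]
      exact ih.symm

lemma pell_pos {m : ℕ} (hm : 0 < m) : 0 < pell m := by
  induction m using Nat.twoStepInduction with
  | zero => omega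
  | one => simp
  | more n ih1 ih2 =>
      rw [pell_add_two]
      have := ih2 (by omega)
      omega

lemma pell_dvd_mul (m k : ℕ) : pell m ∣ pell (m * k) := by
  induction k with
  | zero => simp
  | succ k ih =>
      rcases Nat.eq_zero_or_pos m with rfl | hm
      · simp
      obtain ⟨r, rfl⟩ : ∃ r, m = r + 1 := ⟨m - 1, by omega⟩
      have : (r + 1) * (k + 1) = (r + 1) * k + r + 1 := by ring
      rw [this, pell_add]
      exact dvd_add (Dvd.dvd.mul_right ih _) (Dvd.intro_left _ rfl)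

lemma pell_dvd {m n : ℕ} (h : m ∣ n) : pell m ∣ pell n := by
  obtain ⟨k, rfl⟩ := h
  exact pell_dvd_mul m k

/-- If `q` divides two Pell numbers with coprime indices then `q = 1`. -/
lemma dvd_pell_gcd (q m n : ℕ) : q ∣ pell m → q ∣ pell n → q ∣ pell (Nat.gcd m n) := by
  induction m, n using Nat.gcd.induction with
  | H0 n => intro _ h; simpa using h
  | H1 m n hm ih =>
      intro h1 h2
      rw [Nat.gcd_rec]
      refine ih ?_ h1
      -- q ∣ pell (n % m)
      obtain ⟨r, hr⟩ : ∃ r, n = m * (n / m) + n % m := ⟨0, (Nat.div_add_mod n m).symm⟩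
      rcases Nat.eq_zero_or_pos (n % m) with h0 | h0
      · rw [h0]; simp
      obtain ⟨s, hs⟩ : ∃ s, n % m = s + 1 := ⟨n % m - 1, by omega⟩
      rw [hr, hs, ← Nat.add_assoc, pell_add] at h2
      have h3 : q ∣ pell (m * (n / m)) := h1.trans (pell_dvd_mul _ _)
      have h4 : q ∣ pell (m * (n / m) + 1) * pell (s + 1) :=
        (Nat.dvd_add_right (Dvd.dvd.mul_right h3 _)).mp h2
      rw [hs]
      exact (Nat.Coprime.dvd_of_dvd_mul_left
        (Nat.Coprime.coprime_dvd_left h3 (pell_coprime _)) h4)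

/-- `pell (m*k) ≡ k * pell m * (pell (m+1))^(k-1)` modulo `(pell m)^2`. -/
lemma pell_mul_aux (m k : ℕ) :
    ((pell m : ℤ) ^ 2 ∣ (pell (m * (k + 1)) : ℤ) - (k + 1) * pell m * (pell (m + 1)) ^ k) ∧
    ((pell m : ℤ) ^ 2 ∣ (pell (m * (k + 1) + 1) : ℤ) - (pell (m + 1)) ^ (k + 1)) := by
  rcases Nat.eq_zero_or_pos m with rfl | hm
  · simp
  obtain ⟨r, rfl⟩ : ∃ r, m = r + 1 := ⟨m - 1, by omega⟩
  induction k with
  | zero => simp
  | succ k ih =>
      obtain ⟨⟨u, hu⟩, ⟨v, hv⟩⟩ := ih
      have e1 : pell ((r + 1) * (k + 1 + 1)) =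
          pell ((r+1) * (k+1)) * pell r + pell ((r+1)*(k+1) + 1) * pell (r + 1) := by
        have : (r + 1) * (k + 1 + 1) = (r + 1) * (k + 1) + r + 1 := by ring
        rw [this, pell_add]
      have e2 : pell ((r + 1) * (k + 1 + 1) + 1) =
          pell ((r+1) * (k+1)) * pell (r+1) + pell ((r+1)*(k+1) + 1) * pell (r + 1 + 1) := by
        have : (r + 1) * (k + 1 + 1) + 1 = (r + 1) * (k + 1) + (r + 1) + 1 := by ring
        rw [this, pell_add]
      have e3 : (pell r : ℤ) = pell (r + 1 + 1) - 2 * pell (r + 1) := by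
        rw [show pell (r + 1 + 1) = 2 * pell (r+1) + pell r from rfl]; push_cast; ring
      rw [e1, e2]
      push_cast
      have hu' : (pell ((r + 1) * (k + 1)) : ℤ) = (k + 1) * pell (r+1) * (pell (r + 1 + 1)) ^ k
          + (pell (r+1) : ℤ)^2 * u := by linarith
      have hv' : (pell ((r + 1) * (k + 1) + 1) : ℤ) = (pell (r + 1 + 1)) ^ (k + 1)
          + (pell (r+1) : ℤ)^2 * v := by linarith
      rw [hu', hv', e3]
      constructor
      · refine ⟨u * (pell (r+1+1) - 2 * pell (r+1)) + v * pell (r+1)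
          - 2 * (k+1) * (pell (r+1+1))^k, ?_⟩
        ring
      · refine ⟨(k + 1) * (pell (r+1+1))^k + u * pell (r+1) + v * pell (r+1+1), ?_⟩
        ring

/-- If `p ∣ pell m` then `p^2 ∣ pell (m * p)`. -/
lemma sq_dvd {p m : ℕ} (hp : 0 < p) (h : p ∣ pell m) : p ^ 2 ∣ pell (m * p) := by
  obtain ⟨k, rfl⟩ : ∃ k, p = k + 1 := ⟨p - 1, by omega⟩
  have h1 := (pell_mul_aux m k).1
  have h2 : (((k + 1 : ℕ) : ℤ)) ∣ (pell m : ℤ) := by exact_mod_cast h
  have h3 : (((k + 1 : ℕ) : ℤ)) ^ 2 ∣ (pell m : ℤ) ^ 2 := pow_dvd_pow_of_dvd h2 2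
  have h4 : (((k + 1 : ℕ) : ℤ)) ^ 2 ∣ ((k : ℤ) + 1) * pell m * (pell (m + 1)) ^ k := by
    apply Dvd.dvd.mul_right
    rw [pow_two]
    apply mul_dvd_mul _ h2
    push_cast; exact dvd_refl _
  have h5 : (((k + 1 : ℕ) : ℤ)) ^ 2 ∣ (pell (m * (k + 1)) : ℤ) := by
    have := dvd_add (h3.trans h1) h4
    simpa using this
  exact_mod_cast h5

/-- Cassini. -/
lemma cassini (k : ℕ) : pell (2 * k + 1) * pell (2 * k + 3) = pell (2 * k + 2) ^ 2 + 1 := by
  induction k with
  | zero => decide
  | succ k ih =>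
      have a1 : pell (2 * (k + 1) + 1) = 2 * pell (2 * k + 2) + pell (2 * k + 1) := rfl
      have a2 : pell (2 * (k + 1) + 2) = 2 * pell (2 * k + 3) + pell (2 * k + 2) := rfl
      have a3 : pell (2 * (k + 1) + 3) = 2 * pell (2 * (k+1) + 2) + pell (2 * k + 3) := rfl
      have a4 : pell (2 * k + 3) = 2 * pell (2 * k + 2) + pell (2 * k + 1) := rfl
      rw [a4] at ih
      rw [a1, a3, a2, a4]
      zify at ih ⊢
      linear_combination ih

lemma pell_even (k : ℕ) : 2 ∣ pell (2 * k) := by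
  have := pell_dvd_mul 2 k
  simpa [show pell 2 = 2 from rfl] using this

lemma pell_odd (k : ℕ) : ¬ 2 ∣ pell (2 * k + 1) := by
  intro h
  have h2 := dvd_pell_gcd 2 (2 * k + 1) (2 * k) h (pell_even k)
  have : Nat.gcd (2 * k + 1) (2 * k) = 1 := by simp
  rw [this] at h2
  simp at h2

lemma not_three_dvd {m : ℕ} (hm : Odd m) : ¬ 3 ∣ pell m := by
  intro h
  have h4 : 3 ∣ pell 4 := by decide
  have := dvd_pell_gcd 3 m 4 h h4
  have hg : Nat.gcd m 4 = 1 := by
    have : Nat.Coprime m (2 ^ 2) := Nat.Coprime.pow_right 2 (Nat.coprime_two_right.mpr hm)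
    simpa using this
  rw [hg] at this
  simp at this

/-- The chain of primes: `p 0 = 3`, `p (j+1)` is the least prime factor of `pell (p j)`. -/
def ch : ℕ → ℕ
  | 0 => 3
  | (j + 1) => (pell (ch j)).minFac

lemma pell_gt_one {m : ℕ} (hm : 2 ≤ m) : 1 < pell m := by
  obtain ⟨r, rfl⟩ : ∃ r, m = r + 2 := ⟨m - 2, by omega⟩
  rw [pell_add_two]
  have := pell_pos (m := r + 1) (by omega)
  omega

lemma ch_prime_odd (j : ℕ) : (ch j).Prime ∧ Odd (ch j) := by
  induction j with
  | zero => exact ⟨by decide, by decide⟩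
  | succ j ih =>
      have h1 : 1 < pell (ch j) := pell_gt_one ih.1.two_le
      have hp : (ch (j+1)).Prime := Nat.minFac_prime (by omega)
      refine ⟨hp, hp.odd_of_ne_two ?_⟩
      intro h2
      have : ch (j + 1) ∣ pell (ch j) := Nat.minFac_dvd _
      rw [h2] at this
      obtain ⟨k, hk⟩ := ih.2
      rw [hk] at this
      exact pell_odd k this

lemma ch_dvd (j : ℕ) : ch (j + 1) ∣ pell (ch j) := Nat.minFac_dvd _

lemma ch_ne (j : ℕ) : ∀ i, i < j → ch i ≠ ch j := by
  induction j using Nat.strong_induction_on with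
  | _ j ih =>
    intro i hij heq
    obtain ⟨j', rfl⟩ : ∃ j', j = j' + 1 := ⟨j - 1, by omega⟩
    rcases Nat.eq_zero_or_pos i with rfl | hi
    · have h1 := ch_dvd j'
      rw [← heq] at h1
      exact not_three_dvd (ch_prime_odd j').2 h1
    · obtain ⟨i', rfl⟩ : ∃ i', i = i' + 1 := ⟨i - 1, by omega⟩
      have hne : ch i' ≠ ch j' := ih j' (by omega) i' (by omega)
      have h1 := ch_dvd i'
      have h2 := ch_dvd j'
      rw [heq] at h1
      have h3 := dvd_pell_gcd _ _ _ h1 h2
      have hg : Nat.gcd (ch i') (ch j') = 1 :=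
        (Nat.coprime_primes (ch_prime_odd i').1 (ch_prime_odd j').1).mpr hne
      rw [hg] at h3
      have := (ch_prime_odd (j'+1)).1.one_lt
      simp at h3
      omega

lemma ch_inj : Function.Injective ch := by
  intro i j h
  rcases lt_trichotomy i j with hl | he | hl
  · exact absurd h (ch_ne j i hl)
  · exact he
  · exact absurd h.symm (ch_ne i j hl)

/-- product of the first `j+1` primes of the chain -/
def NN (j : ℕ) : ℕ := ∏ i ∈ Finset.range (j + 1), ch i

lemma NN_odd (j : ℕ) : Odd (NN j) := by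
  unfold NN
  apply Finset.prod_induction _ Odd (fun a b ha hb => ha.mul hb) (by decide)
  intro i _; exact (ch_prime_odd i).2

/-- The square of `NN j / 3` divides `pell (NN j)`. -/
def MM (j : ℕ) : ℕ := ∏ i ∈ Finset.range j, ch (i + 1)

lemma NN_eq (j : ℕ) : NN j = 3 * MM j := by
  unfold NN MM
  rw [Finset.prod_range_succ']
  rw [mul_comm]
  rfl

lemma MM_sq_dvd (j : ℕ) : (MM j) ^ 2 ∣ pell (NN j) := by
  unfold MM
  rw [← Finset.prod_pow]
  apply Finset.prod_dvd_of_isRelPrime
  swap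
  · intro i hi
    have hi' : i < j := Finset.mem_range.mp hi
    have h1 : ch (i + 1) ^ 2 ∣ pell (ch i * ch (i + 1)) :=
      sq_dvd (ch_prime_odd (i+1)).1.pos (ch_dvd i)
    refine h1.trans (pell_dvd ?_)
    unfold NN
    have hsub : ({i, i + 1} : Finset ℕ) ⊆ Finset.range (j + 1) := by
      intro x hx
      simp at hx
      simp
      omega
    have h2 := Finset.prod_dvd_prod_of_subset _ _ ch hsub
    rwa [Finset.prod_pair (by omega)] at h2
  · intro a ha b hb hab
    rw [Function.onFun, ← Nat.coprime_iff_isRelPrime]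
    apply Nat.Coprime.pow
    exact (Nat.coprime_primes (ch_prime_odd _).1 (ch_prime_odd _).1).mpr
      (fun h => hab (by have := ch_inj h; omega))

lemma MM_ge (j : ℕ) : 3 ^ j ≤ MM j := by
  unfold MM
  calc 3 ^ j = ∏ i ∈ Finset.range j, 3 := by simp
    _ ≤ _ := by
      apply Finset.prod_le_prod'
      intro i _
      have h1 := (ch_prime_odd (i+1)).1.two_le
      obtain ⟨k, hk⟩ := (ch_prime_odd (i+1)).2
      omega

end Pool.Agent.W974.PW
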